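import Mathlib

set_option autoImplicit false

/-!
# The bipartition polynomial of a graph and of its complement (MP_633bfc_co)
-/

namespace Pool.Agent.Results.MP_633bfc_co.Complement

open MvPolynomial

open Classical in
/-- The edges of `G` between `W` and `U` (used for disjoint `W`, `U`), each edge written as the
pair `(w, u)` with `w ∈ W`, `u ∈ U`. With `U` the complement of `W` this is `∂W`. -/
noncomputable def edgesBetween {V : Type} (G : SimpleGraph V) (W U : Finset V) :
    Finset (V × V) := (W ×ˢ U).filter (fun e => G.Adj e.1 e.2)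

open Classical in
/-- The vertices outside `W` joined to a vertex of `W` by an edge of `F ⊆ ∂W`. -/
noncomputable def nbrs {V : Type} (F : Finset (V × V)) : Finset V := F.image Prod.snd

open Classical in
/-- The bipartition polynomial `B(G; x, y, z)`, with `x = X 0`, `y = X 1`, `z = X 2`. -/
noncomputable def bip {V : Type} [Fintype V] (G : SimpleGraph V) : MvPolynomial (Fin 3) ℤ :=
  ∑ W : Finset V, X 0 ^ W.card *
    ∑ F ∈ (edgesBetween G W Wᶜ).powerset, X 1 ^ (nbrs F).card * X 2 ^ F.card

variable {V : Type} [Fintype V]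

theorem sum_interval {R : Type*} [CommRing R] (y : R) {α : Type} [DecidableEq α]
    (N T : Finset α) (h : N ⊆ T) :
    ∑ U ∈ T.powerset.filter (fun U => N ⊆ U), y ^ U.card * (1 - y) ^ (T.card - U.card) =
      y ^ N.card := by
  have h1 : ∑ U ∈ T.powerset.filter (fun U => N ⊆ U), y ^ U.card * (1 - y) ^ (T.card - U.card) =
      ∑ U ∈ (T \ N).powerset, y ^ N.card * (y ^ U.card * (1 - y) ^ ((T \ N).card - U.card)) := by
    symm
    refine Finset.sum_bij' (fun U _ => U ∪ N) (fun U _ => U \ N) ?_ ?_ ?_ ?_ ?_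
    · intro U hU
      rw [Finset.mem_powerset] at hU
      rw [Finset.mem_filter, Finset.mem_powerset]
      exact ⟨Finset.union_subset (hU.trans Finset.sdiff_subset) h, Finset.subset_union_right⟩
    · intro U hU
      rw [Finset.mem_filter, Finset.mem_powerset] at hU
      rw [Finset.mem_powerset]
      exact Finset.sdiff_subset_sdiff hU.1 subset_rfl
    · intro U hU
      rw [Finset.mem_powerset] at hU
      have : Disjoint U N := Finset.disjoint_of_subset_left hU Finset.sdiff_disjoint
      exact Finset.union_sdiff_cancel_right this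
    · intro U hU
      rw [Finset.mem_filter, Finset.mem_powerset] at hU
      exact Finset.sdiff_union_of_subset hU.2
    · intro U hU
      rw [Finset.mem_powerset] at hU
      have h2 : Disjoint U N := Finset.disjoint_of_subset_left hU Finset.sdiff_disjoint
      rw [Finset.card_union_of_disjoint h2, Finset.card_sdiff_of_subset h, pow_add]
      have h3 := Finset.card_le_card hU
      have h4 := Finset.card_le_card h
      rw [Finset.card_sdiff_of_subset h] at h3
      have h5 : T.card - (U.card + N.card) = T.card - N.card - U.card := by omega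
      rw [h5]
      ring
  rw [h1, ← Finset.mul_sum, Finset.sum_pow_mul_eq_add_pow, add_sub_cancel, one_pow, mul_one]

open Classical in
theorem inner_sum (G : SimpleGraph V) (W : Finset V) {R : Type*} [CommRing R] (y z : R) :
    ∑ F ∈ (edgesBetween G W Wᶜ).powerset, y ^ (nbrs F).card * z ^ F.card =
      ∑ U ∈ Wᶜ.powerset, y ^ U.card * (1 - y) ^ (Wᶜ.card - U.card) *
        (1 + z) ^ (edgesBetween G W U).card := by
  have h1 : ∀ F ∈ (edgesBetween G W Wᶜ).powerset, y ^ (nbrs F).card * z ^ F.card =
      ∑ U ∈ Wᶜ.powerset, if nbrs F ⊆ U then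
        y ^ U.card * (1 - y) ^ (Wᶜ.card - U.card) * z ^ F.card else 0 := by
    intro F hF
    rw [Finset.mem_powerset] at hF
    have h2 : nbrs F ⊆ Wᶜ := by
      intro v hv
      obtain ⟨e, he, rfl⟩ := Finset.mem_image.1 hv
      have := hF he
      exact (Finset.mem_product.1 (Finset.mem_filter.1 this).1).2
    rw [← sum_interval y (nbrs F) Wᶜ h2, Finset.sum_mul, Finset.sum_filter]
  rw [Finset.sum_congr rfl h1, Finset.sum_comm]
  refine Finset.sum_congr rfl fun U hU => ?_
  rw [Finset.mem_powerset] at hU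
  rw [← Finset.sum_filter]
  have h3 : (edgesBetween G W Wᶜ).powerset.filter (fun F => nbrs F ⊆ U) =
      (edgesBetween G W U).powerset := by
    ext F
    rw [Finset.mem_filter, Finset.mem_powerset, Finset.mem_powerset]
    constructor
    · rintro ⟨h4, h5⟩ e he
      have h6 := Finset.mem_filter.1 (h4 he)
      have h7 := Finset.mem_product.1 h6.1
      exact Finset.mem_filter.2 ⟨Finset.mem_product.2 ⟨h7.1, h5 (Finset.mem_image_of_mem _ he)⟩,
        h6.2⟩
    · intro h4
      refine ⟨fun e he => ?_, fun v hv => ?_⟩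
      · have h6 := Finset.mem_filter.1 (h4 he)
        have h7 := Finset.mem_product.1 h6.1
        exact Finset.mem_filter.2 ⟨Finset.mem_product.2 ⟨h7.1, hU h7.2⟩, h6.2⟩
      · obtain ⟨e, he, rfl⟩ := Finset.mem_image.1 hv
        exact (Finset.mem_product.1 (Finset.mem_filter.1 (h4 he)).1).2
  rw [h3, ← Finset.mul_sum]
  congr 1
  have h4 := Finset.sum_pow_mul_eq_add_pow z 1 (edgesBetween G W U)
  simp only [one_pow, mul_one] at h4
  rw [h4, add_comm]

open Classical in
/-- the disjoint pairs of vertex sets -/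
noncomputable def pairs (V : Type) [Fintype V] : Finset (Finset V × Finset V) :=
  Finset.univ.filter (fun p => Disjoint p.1 p.2)

/-- the multiset of triples `(|W|, |U|, e(W, U))` over disjoint pairs -/
noncomputable def MM (G : SimpleGraph V) : Multiset (ℕ × ℕ × ℕ) :=
  (pairs V).val.map (fun p => (p.1.card, p.2.card, (edgesBetween G p.1 p.2).card))

open Classical in
theorem sum_pairs {R : Type*} [CommRing R] (x y z : R) (G : SimpleGraph V) :
    ∑ W : Finset V, x ^ W.card *
      ∑ F ∈ (edgesBetween G W Wᶜ).powerset, y ^ (nbrs F).card * z ^ F.card =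
    ((MM G).map (fun m => x ^ m.1 * (y ^ m.2.1 * (1 - y) ^ (Fintype.card V - m.1 - m.2.1) *
      (1 + z) ^ m.2.2))).sum := by
  rw [MM, Multiset.map_map]
  change _ = ∑ p ∈ pairs V, x ^ p.1.card * (y ^ p.2.card *
    (1 - y) ^ (Fintype.card V - p.1.card - p.2.card) * (1 + z) ^ (edgesBetween G p.1 p.2).card)
  rw [pairs, Finset.sum_filter, ← Finset.univ_product_univ, Finset.sum_product]
  refine Finset.sum_congr rfl fun W _ => ?_
  rw [inner_sum, Finset.mul_sum, ← Finset.sum_filter]
  have h1 : (Finset.univ.filter (fun U : Finset V => Disjoint W U)) = Wᶜ.powerset := by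
    ext U
    rw [Finset.mem_filter, Finset.mem_powerset, Finset.subset_compl_iff_disjoint_left]
    simp
  rw [h1]
  refine Finset.sum_congr rfl fun U _ => ?_
  rw [Finset.card_compl]

theorem aeval_bip (G : SimpleGraph V) {R : Type*} [CommRing R] (v : Fin 3 → R) :
    aeval v (bip G) = ((MM G).map (fun m => v 0 ^ m.1 * (v 1 ^ m.2.1 *
      (1 - v 1) ^ (Fintype.card V - m.1 - m.2.1) * (1 + v 2) ^ m.2.2))).sum := by
  rw [← sum_pairs, bip]
  simp only [map_sum, map_mul, map_pow, aeval_X]

theorem bip_eq (G : SimpleGraph V) :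
    bip G = ((MM G).map (fun m => (X 0 : MvPolynomial (Fin 3) ℤ) ^ m.1 * (X 1 ^ m.2.1 *
      (1 - X 1) ^ (Fintype.card V - m.1 - m.2.1) * (1 + X 2) ^ m.2.2))).sum := by
  have := aeval_bip G (X : Fin 3 → MvPolynomial (Fin 3) ℤ)
  rw [← this]
  exact (aeval_X_left_apply _).symm

/-- exponent vectors -/
noncomputable def ex (m : ℕ × ℕ × ℕ) : Fin 3 →₀ ℕ :=
  Finsupp.equivFunOnFinite.symm ![m.1, 2 * m.2.1, m.2.2]

theorem ex_inj : Function.Injective ex := by
  intro m m' h
  have h0 := congrArg (fun e : Fin 3 →₀ ℕ => e 0) h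
  have h1 := congrArg (fun e : Fin 3 →₀ ℕ => e 1) h
  have h2 := congrArg (fun e : Fin 3 →₀ ℕ => e 2) h
  simp [ex] at h0 h1 h2
  exact Prod.ext h0 (Prod.ext h1 h2)

/-- generating polynomial of a multiset of triples -/
noncomputable def gp (M : Multiset (ℕ × ℕ × ℕ)) : MvPolynomial (Fin 3) ℚ :=
  (M.map (fun m => monomial (ex m) (1 : ℚ))).sum

theorem coeff_gp (M : Multiset (ℕ × ℕ × ℕ)) (m : ℕ × ℕ × ℕ) :
    coeff (ex m) (gp M) = M.count m := by
  classical
  induction M using Multiset.induction_on with
  | empty => simp [gp]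
  | cons a M ih =>
    rw [gp, Multiset.map_cons, Multiset.sum_cons, coeff_add, ← gp, ih, Multiset.count_cons,
      coeff_monomial]
    by_cases h : m = a
    · subst h
      simp
      ring
    · rw [if_neg (fun h' => h (ex_inj h').symm), if_neg h]
      simp

theorem eval_gp (M : Multiset (ℕ × ℕ × ℕ)) (v : Fin 3 → ℚ) :
    eval v (gp M) = (M.map (fun m => v 0 ^ m.1 * (v 1 ^ 2) ^ m.2.1 * v 2 ^ m.2.2)).sum := by
  rw [gp, map_multiset_sum, Multiset.map_map]
  congr 1
  refine Multiset.map_congr rfl fun m _ => ?_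
  simp only [Function.comp]
  rw [eval_monomial, Finsupp.prod_fintype _ _ (by simp)]
  simp [ex, Fin.prod_univ_three, pow_mul]

theorem mem_MM (G : SimpleGraph V) {m : ℕ × ℕ × ℕ} (hm : m ∈ MM G) :
    m.1 + m.2.1 ≤ Fintype.card V ∧ m.2.2 ≤ m.1 * m.2.1 := by
  classical
  rw [MM, Multiset.mem_map] at hm
  obtain ⟨p, hp, rfl⟩ := hm
  have hd : Disjoint p.1 p.2 := (Finset.mem_filter.1 hp).2
  constructor
  · simp only
    rw [← Finset.card_union_of_disjoint hd]
    exact Finset.card_le_univ _
  · simp only [edgesBetween]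
    exact (Finset.card_filter_le _ _).trans (Finset.card_product _ _).le

theorem eval_gp_MM (G : SimpleGraph V) (v : Fin 3 → ℚ) :
    eval v (gp (MM G)) = (1 + v 1 ^ 2) ^ Fintype.card V *
      aeval (![v 0 / (1 + v 1 ^ 2), v 1 ^ 2 / (1 + v 1 ^ 2), v 2 - 1] : Fin 3 → ℚ) (bip G) := by
  have hpos : (1 + v 1 ^ 2 : ℚ) ≠ 0 := by positivity
  rw [eval_gp, aeval_bip, ← Multiset.sum_map_mul_left]
  congr 1
  refine Multiset.map_congr rfl fun m hm => ?_
  have h1 := (mem_MM G hm).1
  simp only [Matrix.cons_val_zero, Matrix.cons_val_one, Matrix.cons_val]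
  have e1 : (1 : ℚ) - v 1 ^ 2 / (1 + v 1 ^ 2) = 1 / (1 + v 1 ^ 2) := by
    field_simp
    ring
  have e2 : (1 : ℚ) + (v 2 - 1) = v 2 := by ring
  rw [e1, e2]
  set t := (1 + v 1 ^ 2 : ℚ)
  obtain ⟨r, hr⟩ := Nat.exists_eq_add_of_le h1
  have e3 : Fintype.card V - m.1 - m.2.1 = r := by omega
  rw [e3, hr, div_pow, div_pow, div_pow, one_pow, pow_add, pow_add]
  field_simp

theorem card_eq (G : SimpleGraph V) :
    aeval (![1, 0, 0] : Fin 3 → ℤ) (bip G) = 2 ^ Fintype.card V := by
  classical
  rw [bip]
  simp only [map_sum, map_mul, map_pow, aeval_X, Matrix.cons_val_zero, Matrix.cons_val_one,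
    Matrix.cons_val, one_pow, one_mul]
  have h1 : ∀ W : Finset V, ∑ F ∈ (edgesBetween G W Wᶜ).powerset,
      (0 : ℤ) ^ (nbrs F).card * 0 ^ F.card = 1 := by
    intro W
    rw [Finset.sum_eq_single ∅]
    · simp [nbrs]
    · intro F _ hF
      rw [zero_pow (n := F.card) (Finset.card_ne_zero_of_mem
        (Finset.nonempty_iff_ne_empty.2 hF).choose_spec), mul_zero]
    · intro h
      exact absurd (Finset.empty_mem_powerset _) h
  rw [Finset.sum_congr rfl (fun W _ => h1 W)]
  simp

theorem MM_compl (G : SimpleGraph V) :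
    MM Gᶜ = (MM G).map (fun m => (m.1, m.2.1, m.1 * m.2.1 - m.2.2)) := by
  classical
  rw [MM, MM, Multiset.map_map]
  refine Multiset.map_congr rfl fun p hp => ?_
  have hd : Disjoint p.1 p.2 := (Finset.mem_filter.1 hp).2
  simp only [Function.comp]
  have h1 : (edgesBetween Gᶜ p.1 p.2).card + (edgesBetween G p.1 p.2).card =
      p.1.card * p.2.card := by
    rw [← Finset.card_product, ← Finset.card_union_of_disjoint]
    · congr 1
      ext e
      simp only [edgesBetween, Finset.mem_union, Finset.mem_filter, Finset.mem_product,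
        SimpleGraph.compl_adj]
      constructor
      · rintro (h | h)
        · exact h.1
        · exact h.1
      · intro h
        by_cases ha : G.Adj e.1 e.2
        · exact Or.inr ⟨h, ha⟩
        · refine Or.inl ⟨h, ?_, ha⟩
          intro he
          exact (Finset.disjoint_left.1 hd h.1) (he ▸ h.2)
    · rw [Finset.disjoint_left]
      intro e h1 h2
      simp only [edgesBetween, Finset.mem_filter, SimpleGraph.compl_adj] at h1 h2
      exact h1.2.2 h2.2
  have h2 : (edgesBetween Gᶜ p.1 p.2).card = p.1.card * p.2.card -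
      (edgesBetween G p.1 p.2).card := by omega
  rw [h2]

/-- The bipartition polynomial of a graph is determined by that of its complement. -/
theorem result : ∀ (V V' : Type) [Fintype V] [Fintype V'] (G : SimpleGraph V)
    (H : SimpleGraph V'), bip Gᶜ = bip Hᶜ → bip G = bip H := by
  intro V V' _ _ G H h
  have hn : Fintype.card V = Fintype.card V' := by
    have h1 := card_eq Gᶜ
    have h2 := card_eq Hᶜ
    rw [h, h2] at h1
    have h3 : (2 : ℕ) ^ Fintype.card V' = 2 ^ Fintype.card V := by exact_mod_cast h1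
    exact (Nat.pow_right_injective le_rfl h3).symm
  have hg : gp (MM Gᶜ) = gp (MM Hᶜ) := by
    apply MvPolynomial.funext
    intro v
    rw [eval_gp_MM, eval_gp_MM, h, hn]
  have hM : MM Gᶜ = MM Hᶜ := by
    classical
    apply Multiset.ext.2
    intro m
    have h1 := coeff_gp (MM Gᶜ) m
    rw [hg, coeff_gp] at h1
    exact_mod_cast h1.symm
  have hM' : MM G = MM H := by
    have h1 := MM_compl Gᶜ
    have h2 := MM_compl Hᶜ
    rw [compl_compl] at h1 h2
    rw [h1, h2, hM]
  rw [bip_eq, bip_eq, hM', hn]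

end Pool.Agent.Results.MP_633bfc_co.Complement
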